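import Pool.Agent.helper60.DB.SpecF

/-!
Row bf:EX (MP_fb2c2a_nt): reduction of the binary quadratic forms of discriminant `-60`.
-/

set_option autoImplicit false

namespace Pool.Agent.helper60.DB

theorem EX_red (a : ℕ) : 0 < a → ∀ h c : ℤ, (a : ℤ) * c - h ^ 2 = 15 → ∀ u v : ℤ,
    (∃ x y : ℤ, (a : ℤ) * u ^ 2 + 2 * h * u * v + c * v ^ 2 = x ^ 2 + 15 * y ^ 2) ∨
    (∃ x y : ℤ, (a : ℤ) * u ^ 2 + 2 * h * u * v + c * v ^ 2 = 3 * x ^ 2 + 5 * y ^ 2) ∨
    ∃ z : ℤ, (a : ℤ) * u ^ 2 + 2 * h * u * v + c * v ^ 2 = 2 * z := by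
  induction a using Nat.strong_induction_on with
  | _ a ih =>
    intro ha h c hc u v
    have ha' : (0 : ℤ) < a := by exact_mod_cast ha
    obtain ⟨t, ht⟩ : ∃ t : ℤ, t = (2 * h + a) / (2 * a) := ⟨_, rfl⟩
    have h1 : 2 * (a : ℤ) * t ≤ 2 * h + a := by
      rw [ht]
      exact Int.mul_ediv_self_le (by omega)
    have h2 : 2 * h + a < 2 * (a : ℤ) * t + 2 * a := by
      rw [ht]
      exact Int.lt_mul_ediv_self_add (by omega)
    obtain ⟨k, hk⟩ : ∃ k : ℤ, k = h - a * t := ⟨_, rfl⟩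
    obtain ⟨d, hd⟩ : ∃ d : ℤ, d = c - 2 * h * t + a * t ^ 2 := ⟨_, rfl⟩
    obtain ⟨w, hw⟩ : ∃ w : ℤ, w = u + t * v := ⟨_, rfl⟩
    have h3 : (a : ℤ) * d - k ^ 2 = 15 := by rw [hd, hk]; linear_combination hc
    have h4 : (a : ℤ) * u ^ 2 + 2 * h * u * v + c * v ^ 2 = a * w ^ 2 + 2 * k * w * v + d * v ^ 2 := by
      rw [hd, hk, hw]; ring
    have h5 : -(a : ℤ) ≤ 2 * k := by rw [hk]; linarith
    have h6 : 2 * k ≤ (a : ℤ) := by rw [hk]; linarith
    rw [h4]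
    by_cases hda : (a : ℤ) ≤ d
    · have h7 : (a : ℤ) ≤ 4 := by nlinarith
      have h8 : a ≤ 4 := by exact_mod_cast h7
      have h9 : -2 ≤ k := by omega
      have h10 : k ≤ 2 := by omega
      clear h1 h2 hk hd hw ht hc h4 ih h7 hda
      interval_cases a <;> interval_cases k <;> try (exfalso; omega)
      · exact Or.inl ⟨w, v, by rw [show d = 15 by omega]; push_cast; ring⟩
      · exact Or.inr (Or.inr ⟨w ^ 2 - w * v + 4 * v ^ 2, by rw [show d = 8 by omega]; push_cast; ring⟩)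
      · exact Or.inr (Or.inr ⟨w ^ 2 + w * v + 4 * v ^ 2, by rw [show d = 8 by omega]; push_cast; ring⟩)
      · exact Or.inr (Or.inl ⟨w, v, by rw [show d = 5 by omega]; push_cast; ring⟩)
      · exact Or.inr (Or.inr ⟨2 * w ^ 2 - w * v + 2 * v ^ 2, by rw [show d = 4 by omega]; push_cast; ring⟩)
      · exact Or.inr (Or.inr ⟨2 * w ^ 2 + w * v + 2 * v ^ 2, by rw [show d = 4 by omega]; push_cast; ring⟩)
    · have hd0 : 0 < d := by
        by_contra hcon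
        nlinarith [mul_nonneg ha'.le (by omega : (0 : ℤ) ≤ -d), sq_nonneg k]
      obtain ⟨e, he⟩ : ∃ e : ℕ, (e : ℤ) = d := ⟨d.toNat, Int.toNat_of_nonneg hd0.le⟩
      have h11 := ih e (by omega) (by omega) k a (by rw [he]; linarith) v w
      rw [he] at h11
      rw [show (a : ℤ) * w ^ 2 + 2 * k * w * v + d * v ^ 2 = d * v ^ 2 + 2 * k * v * w + a * w ^ 2 by ring]
      exact h11

theorem EX : EX_stmt := by
  intro p hp hp7 hl
  have hne : ((-15 : ℤ) : ZMod p) ≠ 0 := by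
    intro h0
    rw [(legendreSym.eq_zero_iff p (-15)).2 h0] at hl
    exact zero_ne_one hl
  obtain ⟨s, hs⟩ := (legendreSym.eq_one_iff p hne).1 hl
  obtain ⟨r, hr⟩ : ∃ r : ℤ, (r : ZMod p) = s := ZMod.intCast_surjective s
  have hdvd : (p : ℤ) ∣ r ^ 2 + 15 := by
    rw [← ZMod.intCast_zmod_eq_zero_iff_dvd]
    push_cast
    push_cast at hs
    rw [hr]
    linear_combination -hs
  obtain ⟨c, hc⟩ := hdvd
  rcases EX_red p (by omega) r c (by rw [← hc]; ring) 1 0 with ⟨x, y, h⟩ | ⟨x, y, h⟩ | ⟨z, h⟩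
  · exact Or.inl ⟨x, y, by rw [← h]; ring⟩
  · exact Or.inr ⟨x, y, by rw [← h]; ring⟩
  · exfalso
    have h1 : (p : ℤ) = 2 * z := by rw [← h]; ring
    have h2 : p % 2 = 0 := by omega
    rcases hp.out.eq_two_or_odd with h3 | h3 <;> omega

end Pool.Agent.helper60.DB
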