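import Pool.Agent.helper60.DB.SpecC

/-!
Row bc:SR (MP_fb2c2a_nt): the power series `κ X N² / D²`.
-/

set_option autoImplicit false

namespace Pool.Agent.helper60.DB

open Polynomial Finset

theorem SR_cc {K : Type} [Field K] (f : K[X]) :
    PowerSeries.constantCoeff (f : PowerSeries K) = f.coeff 0 := by
  rw [← PowerSeries.coeff_zero_eq_constantCoeff_apply, Polynomial.coeff_coe]

theorem SR : SR_stmt := by
  intro K _ A B A' B' π κ N D hD0 h
  have hc : PowerSeries.constantCoeff (D : PowerSeries K) ≠ 0 := by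
    rw [SR_cc]
    exact hD0
  have hD : (D : PowerSeries K) ≠ 0 := by
    intro h0
    rw [h0, map_zero] at hc
    exact hc rfl
  have hE : (D : PowerSeries K) * (D : PowerSeries K)⁻¹ = 1 := PowerSeries.mul_inv_cancel _ hc
  obtain ⟨ψ, hψ⟩ : ∃ ψ : PowerSeries K, ψ = PowerSeries.X * (PowerSeries.C κ * (N : PowerSeries K) ^ 2 *
    ((D : PowerSeries K)⁻¹) ^ 2) := ⟨_, rfl⟩
  have h1 : (D : PowerSeries K) ^ 2 * ψ = PowerSeries.C κ * PowerSeries.X * (N : PowerSeries K) ^ 2 := by
    rw [hψ]
    linear_combination (PowerSeries.C κ * PowerSeries.X * (N : PowerSeries K) ^ 2 *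
      ((D : PowerSeries K) * (D : PowerSeries K)⁻¹ + 1)) * hE
  have h2 : PowerSeries.constantCoeff ψ = 0 := by
    rw [hψ, map_mul, PowerSeries.constantCoeff_X, zero_mul]
  refine ⟨ψ, h1, h2, ?_, ?_⟩
  · have h3 : PowerSeries.coeff 1 ψ = κ * N.coeff 0 ^ 2 * ((D.coeff 0)⁻¹) ^ 2 := by
      rw [hψ, show (1 : ℕ) = 0 + 1 from rfl, PowerSeries.coeff_succ_X_mul,
        PowerSeries.coeff_zero_eq_constantCoeff_apply, map_mul, map_mul, map_pow, map_pow,
        PowerSeries.constantCoeff_C, PowerSeries.constantCoeff_inv, SR_cc, SR_cc]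
    rw [h3]
    field_simp
  · have h5 : (D : PowerSeries K) ^ 3 * PowerSeries.derivative K ψ
        = PowerSeries.C κ * (N : PowerSeries K) * (Mn N D : K[X]) := by
      have h6 := congrArg (PowerSeries.derivative K) h1
      rw [Derivation.leibniz, Derivation.leibniz, Derivation.leibniz, PowerSeries.derivative_pow,
        PowerSeries.derivative_pow, PowerSeries.derivative_coe, PowerSeries.derivative_coe,
        PowerSeries.derivative_C, PowerSeries.derivative_X] at h6
      simp only [smul_eq_mul, Nat.cast_ofNat, mul_zero, add_zero, mul_one, pow_one,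
        show (2 - 1 : ℕ) = 1 from rfl] at h6
      have h9 : ((2 : K[X]) : PowerSeries K) = 2 := map_ofNat (Polynomial.coeToPowerSeries.ringHom) 2
      rw [Mn]
      push_cast
      rw [h9]
      linear_combination (D : PowerSeries K) * h6 - 2 * (derivative D : K[X]) * h1
    have h7 : (PowerSeries.C κ * (qs A B * (Mn N D : K[X]) ^ 2) : PowerSeries K)
        = PowerSeries.C (π ^ 2) * ((D : PowerSeries K) ^ 4 + PowerSeries.C (A' * κ) * PowerSeries.X *
          (N : PowerSeries K) ^ 2 * (D : PowerSeries K) ^ 2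
          + PowerSeries.C (B' * κ ^ 2) * PowerSeries.X ^ 2 * (N : PowerSeries K) ^ 4) := by
      have h8 := congrArg (fun f : K[X] => (f : PowerSeries K)) h
      simp only [qf] at h8
      push_cast at h8
      rw [qs]
      push_cast
      exact h8
    apply mul_left_cancel₀ (pow_ne_zero 6 hD)
    simp only [map_mul, map_pow] at h7 ⊢
    linear_combination (PowerSeries.X * qs A B * ((D : PowerSeries K) ^ 3 * PowerSeries.derivative K ψ
      + PowerSeries.C κ * (N : PowerSeries K) * (Mn N D : K[X]))) * h5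
      + (PowerSeries.C κ * PowerSeries.X * (N : PowerSeries K) ^ 2) * h7
      - PowerSeries.C π ^ 2 * ((D : PowerSeries K) ^ 4 + PowerSeries.C A' * (D : PowerSeries K) ^ 2 *
        ((D : PowerSeries K) ^ 2 * ψ + PowerSeries.C κ * PowerSeries.X * (N : PowerSeries K) ^ 2)
        + PowerSeries.C B' * (((D : PowerSeries K) ^ 2 * ψ) ^ 2 + ((D : PowerSeries K) ^ 2 * ψ) *
        (PowerSeries.C κ * PowerSeries.X * (N : PowerSeries K) ^ 2)
        + (PowerSeries.C κ * PowerSeries.X * (N : PowerSeries K) ^ 2) ^ 2)) * h1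

end Pool.Agent.helper60.DB
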